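import Pool.Agent.H40CS.Sedf
import Pool.Agent.H40CS.SieveTwo
import Pool.Agent.H40CS.ExactDivisors

/-!
# Strong external difference families with a bounded number of sets

Let `A_1, ..., A_m` be an `(n, m, k, lam)`-SEDF in an abelian group of order `n`, `m ≥ 3`. For a
character of prime order `w ∣ n` let `x_j` be the value on `A_j` and `X` the sum of the `x_j`. Then
either all `x_j x̄_j = lam` or `X X̄ (p - 1) (q - 1) = (p - q) ^ 2 lam` with `p + q = m`. If `w`
divides `l ^ i + 1`, complex conjugation is a power of Frobenius above `l`, so all norms have even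
`l`-adic valuation; hence so has `lam` if `l > m`, and so has `n - 1 = k ^ 2 (m - 1) / lam`.
-/

namespace Pool.Agent.Results.MP_e8b612_co.BoundedNumberOfSets

open Finset Filter Pool.Agent.H40CS

/-- Some abelian group of order `n` contains a nontrivial strong external difference family with
at least three and at most `M` sets (`Pool.Agent.H40CS.IsSEDF`). -/
def HasSEDF (M n : ℕ) : Prop :=
  ∃ (G : Type) (_ : AddCommGroup G) (_ : DecidableEq G) (m k lam : ℕ) (A : Fin m → Finset G),
    Finite G ∧ Nat.card G = n ∧ 3 ≤ m ∧ m ≤ M ∧ 2 ≤ k ∧ 1 ≤ lam ∧ IsSEDF k lam A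

theorem DZ_HasSEDF (M : ℕ) : DZ (HasSEDF M) := by
  apply DZ_of_dvd
  intro w hw
  apply DZ.shift
  apply DZ_exact' w M hw.two_le
  rintro t ⟨hwt, G, _, _, m, k, lam, A, _, hG, hm3, hmM, _, hlam, hA⟩ l hl hlM hwl hlt
  have h1 := (sedf_criterion hm3 hlam hA hw hl (by rw [hG]; exact hwt) (i := 1) one_ne_zero
    (by rw [pow_one]; exact hwl) (by omega)).2
  rw [hG, Nat.add_sub_cancel] at h1
  by_cases ht : t = 0
  · rw [ht]; exact dvd_zero _
  rw [hl.pow_dvd_iff_le_factorization ht]
  have h2 : 1 ≤ t.factorization l := (hl.dvd_iff_one_le_factorization ht).1 hlt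
  obtain ⟨c, hc⟩ := h1
  omega

/-- **Abelian strong external difference families with a bounded number of sets.** Let `A` be an
`(n, m, k, lam)`-SEDF in a finite abelian group, `m ≥ 3`. If `w` and `l` are primes, `l > m`, `w`
divides `n` and some `l ^ i + 1` with `i > 0`, then `l` divides `lam` and `n - 1` to even powers.
Consequently, for every `M`, the `n` for which some abelian group of order `n` contains a
nontrivial SEDF with at least `3` and at most `M` sets have natural density zero. -/
theorem result :
    (∀ (G : Type) [AddCommGroup G] [DecidableEq G] [Finite G] (m k lam : ℕ)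
      (A : Fin m → Finset G), 3 ≤ m → 1 ≤ lam → IsSEDF k lam A →
      ∀ w l i : ℕ, w.Prime → l.Prime → m < l → w ∣ Nat.card G → 0 < i → w ∣ l ^ i + 1 →
        Even (lam.factorization l) ∧ Even ((Nat.card G - 1).factorization l)) ∧
    ∀ M : ℕ, Tendsto (fun X : ℕ => ({n : ℕ | n < X ∧ HasSEDF M n}.ncard : ℝ) / X) atTop
      (nhds 0) := by
  refine ⟨?_, fun M => tendsto_of_DZ (DZ_HasSEDF M)⟩
  intro G _ _ _ m k lam A hm hlam hA w l i hw hl hml hwG hi hwl
  exact sedf_criterion hm hlam hA hw hl hwG hi.ne' hwl hml

end Pool.Agent.Results.MP_e8b612_co.BoundedNumberOfSets
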